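import Pool.Agent.helper22.FP.Final

/-!
# Finite products of `Δ`-spaces and the cardinals `ℵ_k`

For finitely many `Δ`-spaces of size at most `ℵ_k` (up to relatively `σ`-finite sets, for example
isolated points) all finite products are `Δ`-spaces as soon as those of `k + 1` factors are, and for
`k + 1` factors one partition decides, which does not depend on the topologies. For `k = 1`: products of
two factors, and one partition of `X × Y`.
-/

open Set Cardinal

universe u

namespace Pool.Agent.Results.MP_055c40_gt.FiniteProducts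

open Pool.Agent.helper22.FP

theorem result :
    (∀ (k : ℕ) (I : Type) [Fintype I] [DecidableEq I] (X : I → Type u) [∀ i, Nonempty (X i)]
      (A : ∀ i, Set (X i)), (∀ i, #(A i) ≤ ℵ_ (k : ℕ)) →
      ∃ E : ∀ S : Finset I, (∀ i : S, X i) → ℕ, ∀ [∀ i, TopologicalSpace (X i)],
        (∀ i, RelSigmaFinite (A i)ᶜ) →
        List.TFAE [IsDelta (∀ i, X i),
          ∀ S : Finset I, S.card ≤ k + 1 → IsDelta (∀ i : S, X i),
          (∀ S : Finset I, S.card ≤ k → IsDelta (∀ i : S, X i)) ∧
            ∀ S : Finset I, S.card = k + 1 → Expands (E S)]) ∧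
    (∀ (X Y : Type u) (A : Set X) (B : Set Y), #A ≤ ℵ_ 1 → #B ≤ ℵ_ 1 →
      ∃ E : X × Y → ℕ, ∀ [TopologicalSpace X] [TopologicalSpace Y],
        RelSigmaFinite Aᶜ → RelSigmaFinite Bᶜ → IsDelta X → IsDelta Y →
        (IsDelta (X × Y) ↔ Expands E)) :=
  ⟨fun k I _ _ X _ A hA => products k I X A hA, fun X Y A B hA hB => pair X Y A B hA hB⟩

end Pool.Agent.Results.MP_055c40_gt.FiniteProducts
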