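import Pool.Agent.helper55.PD.Space

/-!
# The productively `Δ` spaces are the `σ`-finite spaces

For every set `S` there is a zero-dimensional Hausdorff `Δ`-space `Y` (a closed discrete set plus isolated points) such that,
for every topology on `S`, the product `S × Y` is a `Δ`-space if and only if `S` is `σ`-finite. So a space is `σ`-finite if and
only if its product with every `Δ`-space is a `Δ`-space. Spaces of finite-support functions (strong Eberlein compact spaces) are
an example.
-/

open Set

namespace Pool.Agent.Results.MP_055c40_gt.ProductivelyDelta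

open Pool.Agent.helper65.Delta

theorem result :
    (∀ S : Type, ∃ (Y : Type) (_ : TopologicalSpace Y) (A : Set Y), T2Space Y ∧
      (∀ (y : Y) (U : Set Y), IsOpen U → y ∈ U → ∃ V ⊆ U, IsClopen V ∧ y ∈ V) ∧
      (∀ B ⊆ A, IsClosed B) ∧ (∀ y ∉ A, IsOpen {y}) ∧ IsDelta Y ∧
      ∀ _ : TopologicalSpace S, IsSigmaFinite S ↔ IsDelta (S × Y)) ∧
    (∀ (X : Type) [TopologicalSpace X], IsSigmaFinite X ↔
      ∀ (Y : Type) [TopologicalSpace Y], IsDelta Y → IsDelta (X × Y)) ∧
    (∀ (κ : Type) (K : Set (κ → Bool)), (∀ f ∈ K, {i | f i = true}.Finite) →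
      IsSigmaFinite K ∧ ∀ (Y : Type) [TopologicalSpace Y], IsDelta Y → IsDelta (K × Y)) := by
  refine ⟨Pool.Agent.helper55.PD.test_space, fun X _ => Pool.Agent.helper55.PD.productive_iff X, fun κ K hK => ?_⟩
  have h := isSigmaFinite_finite_support K hK
  exact ⟨h, (Pool.Agent.helper55.PD.productive_iff K).1 h⟩

end Pool.Agent.Results.MP_055c40_gt.ProductivelyDelta
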