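import Pool.Agent.helper2.BingG

/-!
# A hereditarily normal `Δ`-space whose square is not a `Δ`-space

Bing's Example G over `ω₁` with integer colours: a hereditarily normal space in which all points outside
a closed discrete set `A` of size `ℵ₁` are isolated and every countable partition of which has an open
expansion covering each point at most twice, while the square is not even countably metacompact.
-/

open Set Cardinal

namespace Pool.Agent.Results.MP_055c40_gt.SquareNotDelta

open Pool.Agent.helper2.BingG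

theorem result :
    ∃ (X : Type) (_ : TopologicalSpace X) (A : Set X),
      T5Space X ∧ #A = ℵ₁ ∧ (∀ B ⊆ A, IsClosed B) ∧ (∀ x ∉ A, IsOpen {x}) ∧
      (∀ f : X → ℕ, ∃ U : ℕ → Set X, (∀ n, IsOpen (U n)) ∧ (∀ x, x ∈ U (f x)) ∧
        ∀ x, {n | x ∈ U n}.Finite ∧ {n | x ∈ U n}.ncard ≤ 2) ∧
      (∃ D : ℕ → Set (X × X), Antitone D ∧ (∀ n, IsClosed (D n)) ∧ (∀ n, D n ⊆ A ×ˢ A) ∧
        ⋂ n, D n = ∅ ∧ ∀ V : ℕ → Set (X × X), (∀ n, IsOpen (V n)) → (∀ n, D n ⊆ V n) →
          (⋂ n, V n).Nonempty) ∧
      ¬ IsDelta (X × X) :=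
  final

end Pool.Agent.Results.MP_055c40_gt.SquareNotDelta
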